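import Pool.Agent.H55.PM.Targets

/-!
# Module TL of the board pm_modules: exactly one representation
-/

set_option autoImplicit false

open Finset

namespace Pool.Agent.H94.PM

open Pool.Agent.H55.PM

/-- the set of the binary digit positions -/
def be (n : ℕ) : Finset ℕ := n.bitIndices.toFinset

theorem mem_be {n b : ℕ} : b ∈ be n ↔ b ∈ n.bitIndices := List.mem_toFinset

theorem sum_be (n : ℕ) : ∑ i ∈ be n, 2 ^ i = n := Finset.sum_toFinset_bitIndices_two_pow n

theorem be_sum (s : Finset ℕ) : be (∑ i ∈ s, 2 ^ i) = s :=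
  Finset.toFinset_bitIndices_sum_two_pow s

theorem be_inj {m n : ℕ} (h : be m = be n) : m = n := by
  rw [← sum_be m, h, sum_be]

theorem be_zero : be 0 = ∅ := by
  have := be_sum ∅
  simpa using this

section split

variable {V : Set ℕ}

theorem be_add {i e : ℕ} (hi : i ∈ IV V) (he : e ∈ EV V) : be (i + e) = be i ∪ be e := by
  have hd : Disjoint (be i) (be e) := by
    rw [Finset.disjoint_left]
    intro b hb1 hb2
    exact hi b (mem_be.mp hb1) (he b (mem_be.mp hb2))
  have : i + e = ∑ b ∈ be i ∪ be e, 2 ^ b := by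
    rw [Finset.sum_union hd, sum_be, sum_be]
  rw [this, be_sum]

theorem split_inj {i e i' e' : ℕ} (hi : i ∈ IV V) (he : e ∈ EV V) (hi' : i' ∈ IV V)
    (he' : e' ∈ EV V) (h : i + e = i' + e') : i = i' ∧ e = e' := by
  have h1 : be i ∪ be e = be i' ∪ be e' := by
    rw [← be_add hi he, ← be_add hi' he', h]
  have h2 : i = i' := by
    apply be_inj
    ext b
    constructor
    · intro hb
      have hb' : b ∈ be i' ∪ be e' := by
        rw [← h1]
        exact Finset.mem_union_left _ hb
      rcases Finset.mem_union.mp hb' with h3 | h3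
      · exact h3
      · exact absurd (he' b (mem_be.mp h3)) (hi b (mem_be.mp hb))
    · intro hb
      have hb' : b ∈ be i ∪ be e := by
        rw [h1]
        exact Finset.mem_union_left _ hb
      rcases Finset.mem_union.mp hb' with h3 | h3
      · exact h3
      · exact absurd (he b (mem_be.mp h3)) (hi' b (mem_be.mp hb))
  exact ⟨h2, by omega⟩

open Classical in
/-- the part of `b` with digits off `V` -/
noncomputable def ip (V : Set ℕ) (b : ℕ) : ℕ := ∑ j ∈ (be b).filter (fun j => j ∉ V), 2 ^ j

open Classical in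
/-- the part of `b` with digits in `V` -/
noncomputable def ep (V : Set ℕ) (b : ℕ) : ℕ := ∑ j ∈ (be b).filter (fun j => j ∈ V), 2 ^ j

theorem ip_mem (b : ℕ) : ip V b ∈ IV V := by
  classical
  intro j hj
  rw [← mem_be, ip, be_sum] at hj
  exact (Finset.mem_filter.mp hj).2

theorem ep_mem (b : ℕ) : ep V b ∈ EV V := by
  classical
  intro j hj
  rw [← mem_be, ep, be_sum] at hj
  exact (Finset.mem_filter.mp hj).2

theorem ip_add_ep (b : ℕ) : ip V b + ep V b = b := by
  classical
  rw [ip, ep, add_comm, Finset.sum_filter_add_sum_filter_not, sum_be]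

/-- the multiplicity of `2 ^ i` in the representation of `n` -/
noncomputable def mult (V : Set ℕ) (n i : ℕ) : ℕ :=
  ∑ e ∈ ((be n).filter (fun b => ip V b = i)).image (ep V), 2 ^ e

theorem mult_spec (n i : ℕ) : mult V n i = 0 ∨ mult V n i ∈ MV V := by
  classical
  rcases Nat.eq_zero_or_pos (mult V n i) with h | h
  · exact Or.inl h
  · refine Or.inr ⟨h, ?_⟩
    intro e he
    rw [← mem_be, mult, be_sum] at he
    obtain ⟨b, -, rfl⟩ := Finset.mem_image.mp he
    exact ep_mem b

theorem mult_sum (n : ℕ) :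
    ∑ i ∈ (be n).image (ip V), mult V n i * 2 ^ i = n := by
  classical
  have h1 : ∀ i ∈ (be n).image (ip V),
      mult V n i * 2 ^ i = ∑ b ∈ (be n).filter (fun b => ip V b = i), 2 ^ b := by
    intro i _
    rw [mult, Finset.sum_image, Finset.sum_mul]
    · refine Finset.sum_congr rfl ?_
      intro b hb
      have := (Finset.mem_filter.mp hb).2
      rw [← this, ← pow_add, add_comm, ip_add_ep]
    · intro b hb b' hb' hbb
      have h2 := (Finset.mem_filter.mp hb).2
      have h3 := (Finset.mem_filter.mp hb').2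
      rw [← ip_add_ep (V := V) b, ← ip_add_ep (V := V) b', h2, h3, hbb]
  rw [Finset.sum_congr rfl h1]
  rw [Finset.sum_fiberwise_of_maps_to (g := ip V) (fun b hb => Finset.mem_image_of_mem _ hb)]
  exact sum_be n

end split

theorem two_pow_inj {i j : ℕ} (h : 2 ^ i = 2 ^ j) : i = j := Nat.pow_right_injective le_rfl h

/-- the digits of the multiplicities are determined by `n` -/
theorem count_spec {V : Set ℕ} {n : ℕ} {p : Nat.Partition n} (hp : p ∈ PS (AV V) (MV V) n)
    {i e : ℕ} (hi : i ∈ IV V) (he : e ∈ EV V) :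
    e ∈ be (p.parts.count (2 ^ i)) ↔ i + e ∈ be n := by
  classical
  -- the set of all pairs
  set Sp : Finset (ℕ × ℕ) := p.parts.toFinset.biUnion
    (fun a => (be (p.parts.count a)).image (fun e => (Nat.log 2 a, e))) with hSp
  have hlog : ∀ j : ℕ, Nat.log 2 (2 ^ j) = j := fun j => Nat.log_pow (by norm_num) j
  have hmem : ∀ x : ℕ × ℕ, x ∈ Sp → x.1 ∈ IV V ∧ x.2 ∈ EV V ∧
      x.2 ∈ be (p.parts.count (2 ^ x.1)) := by
    intro x hx
    rw [hSp, Finset.mem_biUnion] at hx
    obtain ⟨a, ha, hx⟩ := hx
    rw [Multiset.mem_toFinset] at ha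
    obtain ⟨e', he', rfl⟩ := Finset.mem_image.mp hx
    obtain ⟨⟨j, hj, rfl⟩, h2⟩ := hp a ha
    simp only [hlog]
    exact ⟨hj, h2.2 e' (mem_be.mp he'), he'⟩
  have hmem' : ∀ j e' : ℕ, e' ∈ be (p.parts.count (2 ^ j)) → (j, e') ∈ Sp := by
    intro j e' h
    rw [hSp, Finset.mem_biUnion]
    refine ⟨2 ^ j, ?_, ?_⟩
    · rw [Multiset.mem_toFinset, ← Multiset.one_le_count_iff_mem]
      rcases Nat.eq_zero_or_pos (p.parts.count (2 ^ j)) with h0 | h0
      · rw [h0, be_zero] at h
        exact absurd h (Finset.notMem_empty _)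
      · exact h0
    · exact Finset.mem_image.mpr ⟨e', h, by rw [hlog]⟩
  have hinj : Set.InjOn (fun x : ℕ × ℕ => x.1 + x.2) (Sp : Set (ℕ × ℕ)) := by
    intro x hx y hy hxy
    obtain ⟨h1, h2, -⟩ := hmem x hx
    obtain ⟨h3, h4, -⟩ := hmem y hy
    obtain ⟨h5, h6⟩ := split_inj h1 h2 h3 h4 hxy
    exact Prod.ext h5 h6
  -- the sum
  have hsum : n = ∑ b ∈ Sp.image (fun x => x.1 + x.2), 2 ^ b := by
    rw [Finset.sum_image (fun x hx y hy h => hinj hx hy h), hSp, Finset.sum_biUnion]
    · have h1 : n = ∑ a ∈ p.parts.toFinset, p.parts.count a * a := by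
        conv_lhs => rw [← p.parts_sum, Finset.sum_multiset_count]
        rfl
      refine h1.trans (Finset.sum_congr rfl ?_)
      intro a ha
      rw [Multiset.mem_toFinset] at ha
      obtain ⟨⟨j, hj, rfl⟩, -⟩ := hp a ha
      rw [Finset.sum_image]
      · simp only [hlog]
        conv_lhs => rw [← sum_be (p.parts.count (2 ^ j)), Finset.sum_mul]
        refine Finset.sum_congr rfl ?_
        intro e' _
        rw [← pow_add, add_comm]
      · intro x _ y _ h
        exact (Prod.mk.inj h).2
    · intro a ha b hb hab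
      rw [Function.onFun, Finset.disjoint_left]
      intro x hx hy
      obtain ⟨e1, -, h1⟩ := Finset.mem_image.mp hx
      obtain ⟨e2, -, h2⟩ := Finset.mem_image.mp hy
      apply hab
      have ha' : a ∈ p.parts := by simpa using ha
      have hb' : b ∈ p.parts := by simpa using hb
      obtain ⟨⟨j, hj, rfl⟩, -⟩ := hp a ha'
      obtain ⟨⟨j', hj', rfl⟩, -⟩ := hp b hb'
      rw [← h2, hlog, hlog] at h1
      rw [(Prod.mk.inj h1).1]
  have hbe : be n = Sp.image (fun x => x.1 + x.2) := by
    conv_lhs => rw [hsum]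
    exact be_sum _
  rw [hbe]
  constructor
  · intro h
    exact Finset.mem_image.mpr ⟨(i, e), hmem' i e h, rfl⟩
  · intro h
    obtain ⟨x, hx, hxe⟩ := Finset.mem_image.mp h
    obtain ⟨h1, h2, h3⟩ := hmem x hx
    obtain ⟨h4, h5⟩ := split_inj h1 h2 hi he hxe
    rw [← h4, ← h5]
    exact h3

theorem pf_tl (hPP : T_PP) : T_TL := by
  classical
  intro V n
  apply le_antisymm
  · -- uniqueness
    unfold pc
    rw [Set.ncard_le_one (Set.toFinite _)]
    intro p hp q hq
    ext a
    by_cases ha : a ∈ AV V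
    · obtain ⟨i, hi, rfl⟩ := ha
      apply be_inj
      have key : ∀ (p q : Nat.Partition n), p ∈ PS (AV V) (MV V) n → q ∈ PS (AV V) (MV V) n →
          ∀ e, e ∈ be (p.parts.count (2 ^ i)) → e ∈ be (q.parts.count (2 ^ i)) := by
        intro p q hp hq e he
        have hmem : 2 ^ i ∈ p.parts := by
          rw [← Multiset.one_le_count_iff_mem]
          rcases Nat.eq_zero_or_pos (p.parts.count (2 ^ i)) with h0 | h0
          · rw [h0, be_zero] at he
            exact absurd he (Finset.notMem_empty _)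
          · exact h0
        have heV : e ∈ EV V := (hp _ hmem).2.2 e (mem_be.mp he)
        rw [count_spec hq hi heV, ← count_spec hp hi heV]
        exact he
      ext e
      exact ⟨key p q hp hq e, key q p hq hp e⟩
    · have h1 : a ∉ p.parts := fun h => ha (hp a h).1
      have h2 : a ∉ q.parts := fun h => ha (hq a h).1
      rw [Multiset.count_eq_zero_of_notMem h1, Multiset.count_eq_zero_of_notMem h2]
  · -- existence
    refine hPP (AV V) (MV V) n (((be n).image (ip V)).image (fun i => 2 ^ i))
      (fun a => mult V n (Nat.log 2 a)) ?_ ?_ ?_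
    · intro a ha
      obtain ⟨i, hi, rfl⟩ := Finset.mem_image.mp ha
      obtain ⟨b, -, rfl⟩ := Finset.mem_image.mp hi
      exact ⟨by positivity, ip V b, ip_mem b, rfl⟩
    · intro a _
      exact mult_spec n _
    · rw [Finset.sum_image (fun x _ y _ h => two_pow_inj h)]
      have hlog : ∀ j : ℕ, Nat.log 2 (2 ^ j) = j := fun j => Nat.log_pow (by norm_num) j
      simp only [hlog]
      exact mult_sum n

end Pool.Agent.H94.PM
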