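import Pool.Agent.H55.PM.Targets

/-!
# Module N2 of the board pm_modules: almost decreasing
-/

set_option autoImplicit false

namespace Pool.Agent.H94.PM

open Pool.Agent.H55.PM

theorem pf_n2 (h1 : T_N1) (hLE : T_LE) : T_N2 := by
  intro A M hG
  obtain ⟨C, hC0, hC⟩ := h1 A M hG
  obtain ⟨⟨N, hN⟩, -⟩ := hG
  refine ⟨4 * C, 2 * N + 4, ?_⟩
  intro x y hy hyx
  have hpos : (0 : ℝ) < y := by
    have : 0 < y := by omega
    exact_mod_cast this
  have hy4 : (4 : ℝ) ≤ y := by
    have : 4 ≤ y := by omega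
    exact_mod_cast this
  have hyN : (2 * N : ℝ) ≤ y := by
    have : 2 * N ≤ y := by omega
    exact_mod_cast this
  have hyx' : (y : ℝ) ≤ x := by exact_mod_cast hyx
  -- lower bound for the number of choices
  have e1 := hLE A M N y (fun n hn _ => hN n hn)
  have e2 : (y : ℝ) + 1 ≤ N + (1 + (cnt M y : ℝ)) ^ cnt A y := by exact_mod_cast e1
  have e3 : (y : ℝ) / 2 ≤ (1 + (cnt M y : ℝ)) ^ cnt A y := by linarith
  have e4 : Real.sqrt y ≤ (y : ℝ) / 2 := by
    rw [Real.sqrt_le_left (by linarith)]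
    nlinarith
  have e5 : Real.log (Real.sqrt y) ≤ Real.log ((1 + (cnt M y : ℝ)) ^ cnt A y) :=
    Real.log_le_log (Real.sqrt_pos.mpr hpos) (e4.trans e3)
  rw [Real.log_sqrt hpos.le, Real.log_pow] at e5
  -- the basic inequality
  have e6 := hC x y (by omega) (by omega)
  have e7 : Real.log y ≤ Real.log x := Real.log_le_log hpos hyx'
  have e8 : (cnt A x : ℝ) * Real.log (1 + cnt M y) ≤ 2 * C * Real.log x := by
    have : C * (Real.log x + Real.log y) ≤ C * (Real.log x + Real.log x) :=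
      mul_le_mul_of_nonneg_left (by linarith) hC0
    linarith
  have e9 : (cnt A x : ℝ) * (Real.log y / 2) ≤
      (cnt A x : ℝ) * ((cnt A y : ℝ) * Real.log (1 + cnt M y)) :=
    mul_le_mul_of_nonneg_left e5 (Nat.cast_nonneg _)
  have e10 : (cnt A y : ℝ) * ((cnt A x : ℝ) * Real.log (1 + cnt M y)) ≤
      (cnt A y : ℝ) * (2 * C * Real.log x) :=
    mul_le_mul_of_nonneg_left e8 (Nat.cast_nonneg _)
  nlinarith

end Pool.Agent.H94.PM
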